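import Pool.Agent.W2helper59.CW.Stm

/-!
# Piece FIN of project CW: comparison of exponential rates
-/

set_option autoImplicit false

namespace Pool.Agent.W2helper52.CW

open MeasureTheory Set Pool.Agent.W2helper59.CW

theorem Bt_pos (al de ga : ℕ) : 0 < Bt al de ga := by
  have hc : Continuous (fd al de ga) := by
    unfold fd
    exact (continuous_id.rpow_const fun x => Or.inr (by positivity)).mul
      ((continuous_const.sub continuous_id).rpow_const fun x => Or.inr (by positivity))
  unfold Bt
  refine intervalIntegral.intervalIntegral_pos_of_pos_on (hc.intervalIntegrable _ _) ?_ one_pos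
  intro x hx
  unfold fd
  exact mul_pos (Real.rpow_pos_of_pos hx.1 _) (Real.rpow_pos_of_pos (by linarith [hx.2]) _)

theorem lem_de (hU : P_UP) (hL : P_LOWC) {al de ga al' de' ga' : ℕ} {M M' : ℝ} (hM : 0 < M)
    (hM' : 0 < M') (hE : ∀ k, J al de ga k / M ^ k = J al' de' ga' k / M' ^ k) : ¬ de < de' := by
  intro hlt
  obtain ⟨c, hc, hck⟩ := hL al de ga (1 / 2) (by norm_num) (by norm_num)
  have hB := Bt_pos al de ga
  have hB' := Bt_pos al' de' ga'
  set r := 1 / 2 * (de.factorial : ℝ) * Bt al de ga ^ (de + 1) with hr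
  have hr0 : 0 < r := by positivity
  set Q := M / M' * (de'.factorial : ℝ) * Bt al' de' ga' ^ (de' + 1) with hQ
  have hQ0 : 0 < Q := by positivity
  have key : ∀ k : ℕ, c ≤ (Q / r) ^ k / (k.factorial : ℝ) := by
    intro k
    have h1 := hck k
    have h2 := hU al' de' ga' k
    have h3 : J al de ga k = (M / M') ^ k * J al' de' ga' k := by
      have h := hE k
      rw [div_eq_iff (pow_pos hM k).ne'] at h
      rw [h, div_pow]
      ring
    have h4 : J al de ga k ≤ Q ^ k / (((de' + 1) * k).factorial : ℝ) := by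
      rw [h3]
      calc (M / M') ^ k * J al' de' ga' k
          ≤ (M / M') ^ k * ((de'.factorial : ℝ) ^ k * Bt al' de' ga' ^ ((de' + 1) * k) /
            (((de' + 1) * k).factorial : ℝ)) :=
            mul_le_mul_of_nonneg_left h2 (by positivity)
        _ = Q ^ k / (((de' + 1) * k).factorial : ℝ) := by
            rw [hQ, mul_pow, mul_pow, ← pow_mul]
            ring
    have h5 : (((de + 1) * k).factorial : ℝ) * (k.factorial : ℝ) ≤
        (((de' + 1) * k).factorial : ℝ) := by
      have h := (Nat.le_of_dvd (Nat.factorial_pos _)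
        (Nat.factorial_mul_factorial_dvd_factorial_add ((de + 1) * k) k)).trans
        (Nat.factorial_le (show (de + 1) * k + k ≤ (de' + 1) * k by nlinarith))
      exact_mod_cast h
    have hA : (0 : ℝ) < (((de + 1) * k).factorial : ℝ) := by exact_mod_cast Nat.factorial_pos _
    have hk : (0 : ℝ) < (k.factorial : ℝ) := by exact_mod_cast Nat.factorial_pos _
    have h6 : c * r ^ k / (((de + 1) * k).factorial : ℝ) ≤
        Q ^ k / ((((de + 1) * k).factorial : ℝ) * (k.factorial : ℝ)) :=
      (h1.trans h4).trans (div_le_div_of_nonneg_left (by positivity) (by positivity) h5)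
    rw [div_le_div_iff₀ hA (by positivity)] at h6
    rw [div_pow, div_div, le_div_iff₀ (by positivity)]
    have h7 : (((de + 1) * k).factorial : ℝ) * (c * (r ^ k * (k.factorial : ℝ))) ≤
        (((de + 1) * k).factorial : ℝ) * Q ^ k := by linarith
    exact le_of_mul_le_mul_left h7 hA
  have h8 := ge_of_tendsto' (FloorSemiring.tendsto_pow_div_factorial_atTop (Q / r)) key
  linarith

theorem lem_phi (hU : P_UP) (hL : P_LOWC) {al de ga al' ga' : ℕ}
    (hE : ∀ k : ℕ, J al de ga k / ((al.factorial : ℝ) * de.factorial * ga.factorial) ^ k =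
      J al' de ga' k / ((al'.factorial : ℝ) * de.factorial * ga'.factorial) ^ k)
    (hΦ : Bt al de ga ^ (de + 1) / ((al.factorial : ℝ) * ga.factorial) <
      Bt al' de ga' ^ (de + 1) / ((al'.factorial : ℝ) * ga'.factorial)) : False := by
  have hB := Bt_pos al de ga
  have hB' := Bt_pos al' de ga'
  have hf : ∀ n : ℕ, (0 : ℝ) < (n.factorial : ℝ) := fun n => by
    exact_mod_cast Nat.factorial_pos n
  have f1 := hf al
  have f2 := hf ga
  have f3 := hf al'
  have f4 := hf ga'
  have f5 := hf de
  set Φ := Bt al de ga ^ (de + 1) / ((al.factorial : ℝ) * ga.factorial) with hΦd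
  set Φ' := Bt al' de ga' ^ (de + 1) / ((al'.factorial : ℝ) * ga'.factorial) with hΦd'
  have p1 : 0 < Φ := by positivity
  have p2 : 0 < Φ' := by positivity
  have ht : Φ / Φ' < 1 := (div_lt_one p2).2 hΦ
  have ht0 : 0 < Φ / Φ' := by positivity
  obtain ⟨c, hc, hck⟩ := hL al' de ga' ((Φ / Φ' + 1) / 2) (by linarith) (by linarith)
  set ρ := (Φ / Φ' + 1) / 2 with hρ
  have hρ0 : 0 < ρ := by rw [hρ]; linarith
  have hρΦ : Φ < ρ * Φ' := by
    have h1 : ρ * Φ' = (Φ + Φ') / 2 := by
      rw [hρ]; field_simp
    rw [h1]; linarith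
  have hratio : 1 < ρ * Φ' / Φ := (one_lt_div p1).2 hρΦ
  obtain ⟨k, hk⟩ := pow_unbounded_of_one_lt (1 / c) hratio
  have h1 := hck k
  have h2 := hU al de ga k
  have h3 := hE k
  have hA := hf ((de + 1) * k)
  -- c (ρ Φ')^k ≤ Φ^k
  have h4 : c * (ρ * Φ') ^ k ≤ Φ ^ k := by
    have e1 : c * (ρ * (de.factorial : ℝ) * Bt al' de ga' ^ (de + 1)) ^ k /
        (((de + 1) * k).factorial : ℝ) /
          ((al'.factorial : ℝ) * de.factorial * ga'.factorial) ^ k =
        c * (ρ * Φ') ^ k / (((de + 1) * k).factorial : ℝ) := by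
      rw [hΦd', mul_div_assoc', div_pow, ← mul_div_assoc,
        show ((al'.factorial : ℝ) * de.factorial * ga'.factorial) =
          (de.factorial : ℝ) * ((al'.factorial : ℝ) * ga'.factorial) by ring,
        show ρ * (de.factorial : ℝ) * Bt al' de ga' ^ (de + 1) =
          (de.factorial : ℝ) * (ρ * Bt al' de ga' ^ (de + 1)) by ring, mul_pow, mul_pow]
      field_simp
      rw [← mul_pow, mul_assoc]
    have e2 : (de.factorial : ℝ) ^ k * Bt al de ga ^ ((de + 1) * k) /
        (((de + 1) * k).factorial : ℝ) / ((al.factorial : ℝ) * de.factorial * ga.factorial) ^ k =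
        Φ ^ k / (((de + 1) * k).factorial : ℝ) := by
      rw [hΦd, pow_mul, div_pow,
        show ((al.factorial : ℝ) * de.factorial * ga.factorial) =
          (de.factorial : ℝ) * ((al.factorial : ℝ) * ga.factorial) by ring, mul_pow]
      field_simp
    have h5 : c * (ρ * Φ') ^ k / (((de + 1) * k).factorial : ℝ) ≤
        Φ ^ k / (((de + 1) * k).factorial : ℝ) := by
      rw [← e1, ← e2]
      refine (div_le_div_of_nonneg_right h1 (by positivity)).trans ?_
      rw [← h3]
      exact div_le_div_of_nonneg_right h2 (by positivity)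
    rw [div_le_div_iff₀ hA hA] at h5
    exact le_of_mul_le_mul_right h5 hA
  rw [div_pow, div_lt_div_iff₀ hc (by positivity)] at hk
  linarith

theorem mono (hG : P_GAM) {al de ga : ℕ} (hde : 1 ≤ de) : ∀ n : ℕ, 1 ≤ n → al + n ≤ ga - n →
    Bt al de ga ^ (de + 1) / ((al.factorial : ℝ) * ga.factorial) <
      Bt (al + n) de (ga - n) ^ (de + 1) / (((al + n).factorial : ℝ) * (ga - n).factorial) := by
  intro n hn
  induction n, hn using Nat.le_induction with
  | base =>
    intro h
    exact hG al de ga hde (by omega)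
  | succ n hn ih =>
    intro h
    refine (ih (by omega)).trans ?_
    have h1 := hG (al + n) de (ga - n) hde (by omega)
    rwa [add_assoc, Nat.sub_sub] at h1

theorem al_le (hU : P_UP) (hL : P_LOWC) (hG : P_GAM) {al de ga al' ga' : ℕ} (hde : 1 ≤ de)
    (hs : al + ga = al' + ga') (h' : al' ≤ ga')
    (hE : ∀ k : ℕ, J al de ga k / ((al.factorial : ℝ) * de.factorial * ga.factorial) ^ k =
      J al' de ga' k / ((al'.factorial : ℝ) * de.factorial * ga'.factorial) ^ k) :
    ¬ al < al' := by
  intro hlt
  have h1 := mono hG (al := al) (ga := ga) hde (al' - al) (by omega) (by omega)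
  rw [show al + (al' - al) = al' by omega, show ga - (al' - al) = ga' by omega] at h1
  exact lem_phi hU hL hE h1

theorem p_FIN : P_FIN := by
  intro hU hL hG hO al de ga al' de' ga' hs h1 h2 hE
  have hf : ∀ n : ℕ, (0 : ℝ) < (n.factorial : ℝ) := fun n => by
    exact_mod_cast Nat.factorial_pos n
  have f1 := hf al
  have f2 := hf ga
  have f3 := hf al'
  have f4 := hf ga'
  have f5 := hf de
  have f6 := hf de'
  have hde : de = de' := by
    have a1 := lem_de hU hL (by positivity) (by positivity) hE
    have a2 := lem_de hU hL (by positivity) (by positivity) (fun k => (hE k).symm)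
    omega
  subst hde
  have hal : al = al' := by
    rcases Nat.eq_zero_or_pos de with h0 | h0
    · subst h0
      have h3 := hE 2
      simp only [Nat.factorial_zero, Nat.cast_one, mul_one] at h3
      exact hO al ga al' ga' (by omega) h1 h2 h3
    · have a1 := al_le hU hL hG h0 (by omega) h2 hE
      have a2 := al_le hU hL hG h0 (by omega) h1 (fun k => (hE k).symm)
      omega
  exact ⟨hal, rfl, by omega⟩

end Pool.Agent.W2helper52.CW
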